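import Pool.Agent.SNP.T.Val

/-!
# SNP-T-IOTA: inertia elements

`U p` is the field generated over `ℚ_p` by all the roots of unity of order prime to `p`.

(a) `val_U`. PROOF. `x ∈ U` lies in the field generated by finitely many roots of unity (`IntermediateField.exists_finset_of_mem_adjoin` or similar), of orders `n_1, .., n_r` prime to `p`; with
`n = ∏ n_i` and a primitive `n`-th root of unity `ζ` (`HasEnoughRootsOfUnity` / `IsAlgClosed`: characteristic zero) all of them are powers of `ζ`, so `x ∈ ℚ_[p]⟮ζ⟯`; `val_adjoin`.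
(b) `exists_iota`. PROOF. `w` a root of `X ^ M - p`, `z` a primitive `M`-th root of unity (`Ω` algebraically closed of characteristic zero). The minimal polynomial `h` of `w` over `U p` divides
`X ^ M - C p`, so its roots are of the form (`M`-th root of unity) times `w`; its constant coefficient is, up to sign, the product of its `r = deg h` roots, of norm `‖w‖ ^ r = p ^ (-r/M)`, and belongs to `U p`, is nonzero; by (a) `M ∣ r`, so `r = M` and
`h = X ^ M - C p`. So `z w` is a root of the minimal polynomial of `w` over `U p`: there is an automorphism `ι'` of `Ω` over `U p` with `ι' w = z w` (`Ω` is normal over `U p`: for example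
`(minpoly ..)` conjugate roots: `IsConjRoot`, `isConjRoot_iff_exists_algEquiv`, or `Normal.exists_algEquiv..`). Restrict scalars to `ℚ_p`: `ι`. For `‖x‖ = 1` there is a root of unity `ζ` of order prime to `p` with
`‖x - ζ‖ < 1` (`exists_root_near`), `ι ζ = ζ`, so `‖ι x - x‖ ≤ max (‖ι (x - ζ)‖, ‖x - ζ‖) < 1` (`norm_aut`). For `‖x‖ < 1` clear.
-/

set_option autoImplicit false

namespace Pool.Agent.SNP.T

variable {p : ℕ} [Fact p.Prime]

/-- the field generated over `ℚ_p` by all roots of unity of order prime to `p` -/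
noncomputable def U (p : ℕ) [Fact p.Prime] : IntermediateField ℚ_[p] (PadicAlgCl p) :=
  IntermediateField.adjoin ℚ_[p] {ζ : PadicAlgCl p | ∃ n : ℕ, 0 < n ∧ ¬ p ∣ n ∧ ζ ^ n = 1}

open scoped IntermediateField in
private def PU (x : PadicAlgCl p) : Prop :=
  ∃ n : ℕ, 0 < n ∧ ¬ p ∣ n ∧ ∀ ζ : PadicAlgCl p, IsPrimitiveRoot ζ n → x ∈ ℚ_[p]⟮ζ⟯

private theorem exists_prim (n : ℕ) (hn : 0 < n) : ∃ ζ : PadicAlgCl p, IsPrimitiveRoot ζ n := by
  have : NeZero n := ⟨hn.ne'⟩
  have : NeZero ((n : ℕ) : PadicAlgCl p) := ⟨by exact_mod_cast hn.ne'⟩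
  exact HasEnoughRootsOfUnity.exists_primitiveRoot (PadicAlgCl p) n

open scoped IntermediateField in
private theorem mono_adj {n1 n2 : ℕ} (h2 : 0 < n2) {x : PadicAlgCl p}
    (h : ∀ ζ : PadicAlgCl p, IsPrimitiveRoot ζ n1 → x ∈ ℚ_[p]⟮ζ⟯) (h1 : 0 < n1) :
    ∀ ζ : PadicAlgCl p, IsPrimitiveRoot ζ (n2 * n1) → x ∈ ℚ_[p]⟮ζ⟯ := by
  intro ζ hζ
  have h3 : IsPrimitiveRoot (ζ ^ n2) n1 := hζ.pow (Nat.mul_pos h2 h1) rfl
  have h4 := h _ h3
  have h5 : ℚ_[p]⟮ζ ^ n2⟯ ≤ ℚ_[p]⟮ζ⟯ := by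
    rw [IntermediateField.adjoin_simple_le_iff]
    exact pow_mem (IntermediateField.mem_adjoin_simple_self _ _) _
  exact h5 h4

private theorem PU_U {x : PadicAlgCl p} (hx : x ∈ U p) : PU x := by
  have hpp : p.Prime := Fact.out
  induction hx using IntermediateField.adjoin_induction with
  | mem x hx =>
    obtain ⟨n, hn, hpn, hx⟩ := hx
    refine ⟨n, hn, hpn, fun ζ hζ => ?_⟩
    have : NeZero n := ⟨hn.ne'⟩
    obtain ⟨i, -, hi⟩ := hζ.eq_pow_of_pow_eq_one hx
    rw [← hi]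
    exact pow_mem (IntermediateField.mem_adjoin_simple_self _ _) _
  | algebraMap x =>
    refine ⟨1, Nat.one_pos, hpp.one_lt.ne' ∘ Nat.dvd_one.mp, fun ζ _ => ?_⟩
    exact IntermediateField.algebraMap_mem _ _
  | add x y hx hy h1 h2 =>
    obtain ⟨n1, a1, b1, c1⟩ := h1
    obtain ⟨n2, a2, b2, c2⟩ := h2
    refine ⟨n2 * n1, Nat.mul_pos a2 a1, ?_, fun ζ hζ => ?_⟩
    · intro h; rcases hpp.dvd_mul.mp h with h | h
      · exact b2 h
      · exact b1 h
    · refine add_mem (mono_adj a2 c1 a1 ζ hζ) (mono_adj a1 c2 a2 ζ ?_)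
      rwa [mul_comm]
  | mul x y hx hy h1 h2 =>
    obtain ⟨n1, a1, b1, c1⟩ := h1
    obtain ⟨n2, a2, b2, c2⟩ := h2
    refine ⟨n2 * n1, Nat.mul_pos a2 a1, ?_, fun ζ hζ => ?_⟩
    · intro h; rcases hpp.dvd_mul.mp h with h | h
      · exact b2 h
      · exact b1 h
    · refine mul_mem (mono_adj a2 c1 a1 ζ hζ) (mono_adj a1 c2 a2 ζ ?_)
      rwa [mul_comm]
  | inv x hx h1 =>
    obtain ⟨n1, a1, b1, c1⟩ := h1
    exact ⟨n1, a1, b1, fun ζ hζ => inv_mem (c1 ζ hζ)⟩

theorem val_U {x : PadicAlgCl p} (hx : x ∈ U p) (hx0 : x ≠ 0) : ∃ k : ℤ, ‖x‖ = (p : ℝ) ^ k := by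
  obtain ⟨n, hn, hpn, h⟩ := PU_U hx
  obtain ⟨ζ, hζ⟩ := exists_prim (p := p) n hn
  exact val_adjoin hn hpn hζ.pow_eq_one (h ζ hζ) hx0

private theorem norm_prod_pow (M : ℕ) (s : Multiset (PadicAlgCl p)) (h : ∀ y ∈ s, ‖y‖ ^ M = (p : ℝ)⁻¹) :
    ‖s.prod‖ ^ M = ((p : ℝ)⁻¹) ^ (Multiset.card s) := by
  induction s using Multiset.induction_on with
  | empty => simp
  | cons a s ih =>
    rw [Multiset.prod_cons, norm_mul, mul_pow, h a (Multiset.mem_cons_self a s),
      ih (fun y hy => h y (Multiset.mem_cons_of_mem hy)), Multiset.card_cons, pow_succ, mul_comm]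

private theorem norm_sub_lt {x y : PadicAlgCl p} (hx : ‖x‖ < 1) (hy : ‖y‖ < 1) : ‖x - y‖ < 1 := by
  have h := PadicAlgCl.isNonarchimedean p x (-y)
  rw [norm_neg, ← sub_eq_add_neg] at h
  exact lt_of_le_of_lt h (max_lt hx hy)

private theorem minpoly_w (M : ℕ) (hM : 0 < M) (w : PadicAlgCl p) (hw : w ^ M = (p : PadicAlgCl p)) :
    minpoly (U p) w = Polynomial.X ^ M - Polynomial.C (p : U p) := by
  have hpp : p.Prime := Fact.out
  have hp1 : (1 : ℝ) < p := by exact_mod_cast hpp.one_lt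
  have hint : IsIntegral (U p) w := (Algebra.IsAlgebraic.isAlgebraic (R := ℚ_[p]) w).isIntegral.tower_top
  have hmon := minpoly.monic hint
  have hmon2 : (Polynomial.X ^ M - Polynomial.C (p : U p)).Monic := Polynomial.monic_X_pow_sub_C _ hM.ne'
  have hdvd : minpoly (U p) w ∣ Polynomial.X ^ M - Polynomial.C (p : U p) := by
    apply minpoly.dvd
    simp [hw]
  have hroot : ∀ y ∈ (minpoly (U p) w).aroots (PadicAlgCl p), ‖y‖ ^ M = (p : ℝ)⁻¹ := by
    intro y hy
    rw [Polynomial.mem_aroots] at hy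
    have h1 : Polynomial.aeval y (Polynomial.X ^ M - Polynomial.C (p : U p)) = 0 :=
      Polynomial.aeval_eq_zero_of_dvd_aeval_eq_zero hdvd hy.2
    have h2 : y ^ M = (p : PadicAlgCl p) := by
      simpa [sub_eq_zero] using h1
    rw [← norm_pow, h2, norm_p]
  have hsplit : ((minpoly (U p) w).map (algebraMap (U p) (PadicAlgCl p))).Splits := IsAlgClosed.splits _
  have hcoeff := hsplit.coeff_zero_eq_prod_roots_of_monic (hmon.map _)
  have hcard := hsplit.natDegree_eq_card_roots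
  have hdeg : 0 < (minpoly (U p) w).natDegree := minpoly.natDegree_pos hint
  have hle : (minpoly (U p) w).natDegree ≤ M := by
    have := Polynomial.natDegree_le_of_dvd hdvd hmon2.ne_zero
    rwa [Polynomial.natDegree_X_pow_sub_C] at this
  have hM2 : M ∣ (minpoly (U p) w).natDegree := by
    set c : PadicAlgCl p := algebraMap (U p) (PadicAlgCl p) ((minpoly (U p) w).coeff 0) with hc
    have hcn : ‖c‖ ^ M = ((p : ℝ)⁻¹) ^ (minpoly (U p) w).natDegree := by
      rw [hc, ← Polynomial.coeff_map, hcoeff, norm_mul, norm_pow, norm_neg, norm_one, one_pow, one_mul,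
        norm_prod_pow M _ hroot]
      congr 1
      rw [Polynomial.natDegree_map] at hcard
      exact hcard.symm
    have hc0 : c ≠ 0 := by
      intro h0
      rw [h0, norm_zero, zero_pow hM.ne'] at hcn
      have : ((p : ℝ)⁻¹) ^ (minpoly (U p) w).natDegree ≠ 0 := by positivity
      exact this hcn.symm
    obtain ⟨k, hk⟩ := val_U (p := p) (x := c) ((minpoly (U p) w).coeff 0).2 hc0
    rw [hk, ← zpow_natCast, ← zpow_mul, inv_pow, ← zpow_natCast, ← zpow_neg] at hcn
    have := zpow_right_injective₀ (by linarith) hp1.ne' hcn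
    have h3 : (M : ℤ) ∣ ((minpoly (U p) w).natDegree : ℤ) := by
      refine ⟨-k, ?_⟩
      linarith [mul_comm k (M : ℤ)]
    exact_mod_cast h3
  have heq : (minpoly (U p) w).natDegree = M := le_antisymm hle (Nat.le_of_dvd hdeg hM2)
  refine (Polynomial.eq_of_monic_of_dvd_of_natDegree_le hmon hmon2 hdvd ?_).symm
  rw [Polynomial.natDegree_X_pow_sub_C, heq]

theorem exists_iota (p : ℕ) [Fact p.Prime] (M : ℕ) (hM : 0 < M) (hp : ¬ p ∣ M) :
    ∃ (w z : PadicAlgCl p) (ι : PadicAlgCl p ≃ₐ[ℚ_[p]] PadicAlgCl p), w ^ M = (p : PadicAlgCl p) ∧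
      IsPrimitiveRoot z M ∧ ι w = z * w ∧ ∀ x : PadicAlgCl p, ‖x‖ ≤ 1 → ‖ι x - x‖ < 1 := by
  obtain ⟨w, hw⟩ := IsAlgClosed.exists_pow_nat_eq (p : PadicAlgCl p) hM
  obtain ⟨z, hz⟩ := exists_prim (p := p) M hM
  have hmin := minpoly_w M hM w hw
  have hint : IsIntegral (U p) w := (Algebra.IsAlgebraic.isAlgebraic (R := ℚ_[p]) w).isIntegral.tower_top
  have hconj : IsConjRoot (U p) w (z * w) := by
    apply isConjRoot_of_aeval_eq_zero hint
    rw [hmin]
    simp [mul_pow, hw, hz.pow_eq_one]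
  have hnorm : Normal (U p) (PadicAlgCl p) := by infer_instance
  obtain ⟨σ, hσ⟩ := hconj.symm.exists_algEquiv
  refine ⟨w, z, σ.restrictScalars ℚ_[p], hw, hz, hσ, ?_⟩
  intro x hx
  rcases hx.lt_or_eq with hx | hx
  · apply norm_sub_lt _ hx
    rw [norm_aut]; exact hx
  · obtain ⟨n, ζ, hn, hpn, hζ, hd⟩ := exists_root_near hx
    have hU : ζ ∈ U p := IntermediateField.subset_adjoin _ _ ⟨n, hn, hpn, hζ⟩
    have hfix : (σ.restrictScalars ℚ_[p]) ζ = ζ := by
      have := σ.commutes (⟨ζ, hU⟩ : U p)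
      exact this
    have h1 : (σ.restrictScalars ℚ_[p]) x - x = (σ.restrictScalars ℚ_[p]) (x - ζ) - (x - ζ) := by
      rw [map_sub, hfix]; ring
    rw [h1]
    apply norm_sub_lt _ hd
    rw [norm_aut]; exact hd

end Pool.Agent.SNP.T
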