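import Pool.Agent.SNP.T.Phi
import Pool.Agent.SNP.T.Iota

/-!
# SNP-T-TAU: the elements `Φ^k ι^b`

`exists_tau`: for `M ∣ p ^ k - 1`, `M > 0`, `k > 0`: there are `w, z` and automorphisms `tau b` with `w ^ M = p`, `z` a primitive `M`-th root of unity, `tau b w = z ^ b * w`, and `‖tau b x - x ^ (p ^ k)‖ < 1` for `‖x‖ ≤ 1`.
PROOF. `p ∤ M`. Let `Φ, w, z, ι` be as in `exists_phi`, `exists_iota`. `ι z = z` (`root_unique`, both are `M`-th roots of unity and `‖ι z - z‖ < 1`), so `(ι ^ i) w = z ^ i w`. `Ψ = Φ ^ k` satisfies `‖Ψ x - x ^ (p ^ k)‖ < 1` for `‖x‖ ≤ 1` (induction,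
`sub_pow_lt`), `Ψ z = z ^ (p ^ k) = z` (`root_unique`, `M ∣ p ^ k - 1`), and `Ψ w = z ^ c w` for some `c` (`(Ψ w / w) ^ M = 1`; `IsPrimitiveRoot.eq_pow_of_pow_eq_one`). Put
`tau b = Ψ * ι ^ (b + c')`, `c' ≡ -c` modulo `M` (for example `c' = (M - 1) c`): `tau b w = Ψ (z ^ (b+c') w) = z ^ (b + c') z ^ c w = z ^ b w`; and for `‖x‖ ≤ 1`: `‖ι ^ i x - x‖ < 1`, so `‖Ψ (ι ^ i x) - Ψ x‖ < 1`.
-/

set_option autoImplicit false

namespace Pool.Agent.SNP.T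

variable {p : ℕ} [Fact p.Prime]

private theorem pow_near (Φ : PadicAlgCl p ≃ₐ[ℚ_[p]] PadicAlgCl p)
    (hΦ : ∀ x : PadicAlgCl p, ‖x‖ ≤ 1 → ‖Φ x - x ^ p‖ < 1) (k : ℕ) :
    ∀ x : PadicAlgCl p, ‖x‖ ≤ 1 → ‖(Φ ^ k) x - x ^ (p ^ k)‖ < 1 := by
  induction k with
  | zero =>
    intro x _
    simp
  | succ k ih =>
    intro x hx
    have h1 : ‖(Φ ^ k) x‖ ≤ 1 := by rw [norm_aut]; exact hx
    have h2 := hΦ _ h1
    have hx' : ‖x ^ (p ^ k)‖ ≤ 1 := by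
      rw [norm_pow]; exact pow_le_one₀ (norm_nonneg _) hx
    have h3 := sub_pow_lt h1 hx' (ih x hx) p
    have e1 : (Φ ^ (k + 1)) x = Φ ((Φ ^ k) x) := by
      rw [pow_succ']
      rfl
    have e2 : (Φ ^ (k + 1)) x - x ^ (p ^ (k + 1)) =
        (Φ ((Φ ^ k) x) - ((Φ ^ k) x) ^ p) + (((Φ ^ k) x) ^ p - (x ^ (p ^ k)) ^ p) := by
      rw [e1, ← pow_mul, ← pow_succ]
      ring
    rw [e2]
    exact lt_of_le_of_lt (IsUltrametricDist.norm_add_le_max _ _) (max_lt h2 h3)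

private theorem iota_near (ι : PadicAlgCl p ≃ₐ[ℚ_[p]] PadicAlgCl p)
    (hι : ∀ x : PadicAlgCl p, ‖x‖ ≤ 1 → ‖ι x - x‖ < 1) (k : ℕ) :
    ∀ x : PadicAlgCl p, ‖x‖ ≤ 1 → ‖(ι ^ k) x - x‖ < 1 := by
  induction k with
  | zero =>
    intro x _
    simp
  | succ k ih =>
    intro x hx
    have h1 : ‖(ι ^ k) x‖ ≤ 1 := by rw [norm_aut]; exact hx
    have h2 := hι _ h1
    have e1 : (ι ^ (k + 1)) x = ι ((ι ^ k) x) := by
      rw [pow_succ']
      rfl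
    have e2 : (ι ^ (k + 1)) x - x = (ι ((ι ^ k) x) - (ι ^ k) x) + ((ι ^ k) x - x) := by
      rw [e1]
      ring
    rw [e2]
    exact lt_of_le_of_lt (IsUltrametricDist.norm_add_le_max _ _) (max_lt h2 (ih x hx))

theorem exists_tau (p : ℕ) [Fact p.Prime] (M k : ℕ) (hM : 0 < M) (hk : 0 < k) (hdvd : M ∣ p ^ k - 1) :
    ∃ (w z : PadicAlgCl p) (tau : ℕ → (PadicAlgCl p ≃ₐ[ℚ_[p]] PadicAlgCl p)),
      w ^ M = (p : PadicAlgCl p) ∧ IsPrimitiveRoot z M ∧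
      ∀ b, tau b w = z ^ b * w ∧ ∀ x : PadicAlgCl p, ‖x‖ ≤ 1 → ‖tau b x - x ^ (p ^ k)‖ < 1 := by
  have hp : p.Prime := Fact.out
  have hpk : 1 < p ^ k := Nat.one_lt_pow hk.ne' hp.one_lt
  have hpM : ¬ p ∣ M := by
    intro h
    have h1 : p ∣ p ^ k - 1 := h.trans hdvd
    have h2 : p ∣ p ^ k := dvd_pow_self p hk.ne'
    have h3 : p ∣ p ^ k - (p ^ k - 1) := Nat.dvd_sub h2 h1
    have h4 : p ^ k - (p ^ k - 1) = 1 := by omega
    rw [h4] at h3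
    exact hp.one_lt.ne' (Nat.dvd_one.1 h3)
  obtain ⟨Φ, hΦ⟩ := exists_phi p
  obtain ⟨w, z, ι, hw, hz, hιw, hι⟩ := exists_iota p M hM hpM
  have hzM : z ^ M = 1 := hz.pow_eq_one
  have hz1 : ‖z‖ = 1 := norm_root hM hzM
  have hp0 : (p : PadicAlgCl p) ≠ 0 := by
    exact_mod_cast hp.ne_zero
  have hw0 : w ≠ 0 := by
    rintro rfl
    rw [zero_pow hM.ne'] at hw
    exact hp0 hw.symm
  have hιz : ι z = z := by
    refine root_unique hM hpM ?_ hzM (hι z hz1.le)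
    rw [← map_pow, hzM, map_one]
  have hιpz : ∀ i : ℕ, (ι ^ i) z = z := by
    intro i
    induction i with
    | zero => rfl
    | succ i ih =>
      rw [pow_succ']
      change ι ((ι ^ i) z) = z
      rw [ih, hιz]
  have hιpw : ∀ i : ℕ, (ι ^ i) w = z ^ i * w := by
    intro i
    induction i with
    | zero => simp
    | succ i ih =>
      rw [pow_succ' ι]
      change ι ((ι ^ i) w) = z ^ (i + 1) * w
      rw [ih, map_mul, map_pow, hιz, hιw]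
      ring
  set Ψ := Φ ^ k with hΨ
  have hΨn := pow_near Φ hΦ k
  have hΨz : Ψ z = z := by
    refine root_unique hM hpM ?_ hzM ?_
    · rw [← map_pow, hzM, map_one]
    · have h1 := hΨn z hz1.le
      have h2 : z ^ (p ^ k) = z := by
        obtain ⟨c, hc⟩ := hdvd
        have h3 : p ^ k = M * c + 1 := by omega
        rw [h3, pow_succ, pow_mul, hzM, one_pow, one_mul]
      rw [h2] at h1
      exact h1
  obtain ⟨c, -, hc⟩ : ∃ c < M, z ^ c = Ψ w / w := by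
    haveI : NeZero M := ⟨hM.ne'⟩
    refine hz.eq_pow_of_pow_eq_one ?_
    rw [div_pow, ← map_pow, hw, map_natCast, div_self hp0]
  have hΨw : Ψ w = z ^ c * w := by
    rw [hc, div_mul_cancel₀ _ hw0]
  refine ⟨w, z, fun b => Ψ * ι ^ (b + (M - 1) * c), hw, hz, fun b => ⟨?_, fun x hx => ?_⟩⟩
  · change Ψ ((ι ^ (b + (M - 1) * c)) w) = z ^ b * w
    rw [hιpw, map_mul, map_pow, hΨz, hΨw, ← mul_assoc, ← pow_add]
    congr 1
    have h1 : b + (M - 1) * c + c = b + M * c := by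
      have : M = (M - 1) + 1 := by omega
      conv_rhs => rw [this]
      ring
    rw [h1, pow_add, pow_mul z M c, hzM, one_pow, mul_one]
  · change ‖Ψ ((ι ^ (b + (M - 1) * c)) x) - x ^ (p ^ k)‖ < 1
    have h1 := iota_near ι hι (b + (M - 1) * c) x hx
    have h2 : ‖Ψ ((ι ^ (b + (M - 1) * c)) x) - Ψ x‖ < 1 := by
      rw [← map_sub, norm_aut]
      exact h1
    have e : Ψ ((ι ^ (b + (M - 1) * c)) x) - x ^ (p ^ k) =
        (Ψ ((ι ^ (b + (M - 1) * c)) x) - Ψ x) + (Ψ x - x ^ (p ^ k)) := by ring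
    rw [e]
    exact lt_of_le_of_lt (IsUltrametricDist.norm_add_le_max _ _) (max_lt h2 (hΨn x hx))

end Pool.Agent.SNP.T
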