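import Mathlib

/-!
# SNP-T-BASE: the algebraic closure of `ℚ_p`, roots of unity of order prime to `p`

`Ω = PadicAlgCl p` with the spectral norm (nonarchimedean, multiplicative, extends the norm of `ℚ_p`).

(a) `norm_aut`: `spectralNorm_eq_of_equiv` (the spectral norm is invariant under automorphisms; `PadicAlgCl.spectralNorm_eq`).
(b) `norm_nat_le`, `norm_nat_eq`: the norm of a natural number is the `p`-adic one (`PadicAlgCl.norm_extends`, `map_natCast`, `Padic.norm_int_le_one`-like lemmas, `Padic.norm_natCast_eq_one_iff`-like lemmas); `norm_p`: `‖p‖ < 1`.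
(c) `root_unique`. PROOF. `η = ζ' / ζ` has norm `1`, `η ^ n = 1`, `‖η - 1‖ < 1`. If `η ≠ 1` then `∑_{i<n} η ^ i = 0` (`Commute.geom_sum...`/`mul_geom_sum`), and `‖η ^ i - 1‖ < 1`
for all `i` (`η^i - 1 = (η - 1) ∑ ..`), so `‖n‖ = ‖n - ∑ η^i‖ < 1`, contradicting (b).
(d) `root_near`. PROOF. `X ^ n - 1` splits over the algebraically closed field `Ω`: `x ^ n - 1 = ∏ (x - ζ)` over the roots; if all factors had norm `≥ 1` the product would have norm `≥ 1`.
(e) `sub_pow_lt`: `‖x^n - y^n‖ < 1` from `‖x - y‖ < 1`, `‖x‖, ‖y‖ ≤ 1` (`x - y ∣ x^n - y^n`, `Commute.geom_sum₂_mul`, ultrametric inequality for finite sums).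
-/

set_option autoImplicit false

namespace Pool.Agent.SNP.T

variable {p : ℕ} [Fact p.Prime]

theorem norm_aut (σ : PadicAlgCl p ≃ₐ[ℚ_[p]] PadicAlgCl p) (x : PadicAlgCl p) : ‖σ x‖ = ‖x‖ := by
  rw [← PadicAlgCl.spectralNorm_eq, ← PadicAlgCl.spectralNorm_eq]
  exact (spectralNorm_eq_of_equiv σ x).symm

theorem norm_nat_le (n : ℕ) : ‖(n : PadicAlgCl p)‖ ≤ 1 :=
  IsUltrametricDist.norm_natCast_le_one (PadicAlgCl p) n

private theorem norm_nat (n : ℕ) : ‖(n : PadicAlgCl p)‖ = ‖(n : ℚ_[p])‖ := by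
  rw [← map_natCast (algebraMap ℚ_[p] (PadicAlgCl p))]
  exact PadicAlgCl.norm_extends p _

theorem norm_nat_eq {n : ℕ} (hn : ¬ p ∣ n) : ‖(n : PadicAlgCl p)‖ = 1 := by
  rw [norm_nat, Padic.norm_natCast_eq_one_iff]
  exact ((Nat.Prime.coprime_iff_not_dvd Fact.out).2 hn)

theorem norm_p : ‖(p : PadicAlgCl p)‖ = (p : ℝ)⁻¹ := by
  rw [norm_nat, Padic.norm_p]

theorem norm_root {n : ℕ} (hn : 0 < n) {ζ : PadicAlgCl p} (h : ζ ^ n = 1) : ‖ζ‖ = 1 := by
  have h1 : ‖ζ‖ ^ n = 1 := by rw [← norm_pow, h, norm_one]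
  exact (pow_eq_one_iff_of_nonneg (norm_nonneg _) hn.ne').1 h1

theorem sub_pow_lt {x y : PadicAlgCl p} (hx : ‖x‖ ≤ 1) (hy : ‖y‖ ≤ 1) (h : ‖x - y‖ < 1) (n : ℕ) :
    ‖x ^ n - y ^ n‖ < 1 := by
  rw [← (Commute.all x y).geom_sum₂_mul n, norm_mul]
  have h1 : ‖∑ i ∈ Finset.range n, x ^ i * y ^ (n - 1 - i)‖ ≤ 1 := by
    refine IsUltrametricDist.norm_sum_le_of_forall_le_of_nonneg zero_le_one fun i _ => ?_
    rw [norm_mul, norm_pow, norm_pow]
    exact mul_le_one₀ (pow_le_one₀ (norm_nonneg _) hx) (pow_nonneg (norm_nonneg _) _)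
      (pow_le_one₀ (norm_nonneg _) hy)
  calc ‖∑ i ∈ Finset.range n, x ^ i * y ^ (n - 1 - i)‖ * ‖x - y‖ ≤ 1 * ‖x - y‖ :=
        mul_le_mul_of_nonneg_right h1 (norm_nonneg _)
    _ < 1 := by rw [one_mul]; exact h

theorem root_unique {n : ℕ} (hn : 0 < n) (hp : ¬ p ∣ n) {ζ ζ' : PadicAlgCl p} (h : ζ ^ n = 1)
    (h' : ζ' ^ n = 1) (hd : ‖ζ - ζ'‖ < 1) : ζ = ζ' := by
  by_contra hne
  have hζ := norm_root hn h
  have hζ' := norm_root hn h'
  have hz0 : ζ ≠ 0 := by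
    rintro rfl
    rw [norm_zero] at hζ
    exact zero_ne_one hζ
  have hz0' : ζ' ≠ 0 := by
    rintro rfl
    rw [norm_zero] at hζ'
    exact zero_ne_one hζ'
  set η : PadicAlgCl p := ζ / ζ' with hη
  have h1 : η ^ n = 1 := by rw [hη, div_pow, h, h', div_one]
  have h2 : ‖η‖ = 1 := norm_root hn h1
  have h3 : ‖η - 1‖ < 1 := by
    have e : η - 1 = (ζ - ζ') / ζ' := by
      rw [hη]
      field_simp
    rw [e, norm_div, hζ', div_one]
    exact hd
  have h4 : η - 1 ≠ 0 := by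
    intro h5
    apply hne
    have h6 : ζ / ζ' = 1 := sub_eq_zero.1 h5
    rwa [div_eq_one_iff_eq hz0'] at h6
  have h5 : ∑ i ∈ Finset.range n, η ^ i = 0 := by
    have h6 := geom_sum_mul η n
    rw [h1, sub_self] at h6
    exact (mul_eq_zero.1 h6).resolve_right h4
  have h6 : ‖∑ i ∈ Finset.range n, (1 - η ^ i)‖ < 1 := by
    obtain ⟨i, -, hi⟩ := IsUltrametricDist.exists_norm_finsetSum_le_of_nonempty
      (Finset.nonempty_range_iff.2 hn.ne') (fun i => (1 : PadicAlgCl p) - η ^ i)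
    refine lt_of_le_of_lt hi ?_
    have h7 := sub_pow_lt h2.le norm_one.le h3 i
    rw [one_pow] at h7
    rw [norm_sub_rev]
    exact h7
  rw [Finset.sum_sub_distrib, h5, sub_zero, Finset.sum_const, Finset.card_range, nsmul_eq_mul,
    mul_one, norm_nat_eq hp] at h6
  exact lt_irrefl _ h6

theorem root_near {n : ℕ} (hn : 0 < n) {x : PadicAlgCl p} (h : ‖x ^ n - 1‖ < 1) :
    ∃ ζ : PadicAlgCl p, ζ ^ n = 1 ∧ ‖x - ζ‖ < 1 := by
  by_contra hcon
  have hcon' : ∀ ζ : PadicAlgCl p, ζ ^ n = 1 → 1 ≤ ‖x - ζ‖ := by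
    intro ζ hζ
    by_contra h1
    exact hcon ⟨ζ, hζ, lt_of_not_ge h1⟩
  have hm : (Polynomial.X ^ n - 1 : Polynomial (PadicAlgCl p)).Monic :=
    Polynomial.monic_X_pow_sub_C 1 hn.ne'
  have hs : (Polynomial.X ^ n - 1 : Polynomial (PadicAlgCl p)).Splits :=
    IsAlgClosed.splits _
  have h1 := hs.eval_eq_prod_roots_of_monic hm x
  rw [Polynomial.eval_sub, Polynomial.eval_pow, Polynomial.eval_X, Polynomial.eval_one] at h1
  rw [h1] at h
  have h2 : ∀ s : Multiset (PadicAlgCl p), (∀ ζ ∈ s, 1 ≤ ‖x - ζ‖) →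
      1 ≤ ‖(s.map (x - ·)).prod‖ := by
    intro s
    induction s using Multiset.induction_on with
    | empty => intro _; simp
    | cons a t ih =>
      intro hs
      rw [Multiset.map_cons, Multiset.prod_cons, norm_mul]
      exact one_le_mul_of_one_le_of_one_le (hs a (Multiset.mem_cons_self a t))
        (ih fun ζ hζ => hs ζ (Multiset.mem_cons_of_mem hζ))
  have h3 := h2 (Polynomial.X ^ n - 1 : Polynomial (PadicAlgCl p)).roots (by
    intro ζ hζ
    refine hcon' ζ ?_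
    have h4 := (Polynomial.mem_roots'.1 hζ).2
    rw [Polynomial.IsRoot.def, Polynomial.eval_sub, Polynomial.eval_pow, Polynomial.eval_X,
      Polynomial.eval_one] at h4
    exact sub_eq_zero.1 h4)
  exact absurd h (not_lt.2 h3)

end Pool.Agent.SNP.T
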