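import Pool.Agent.SNP.T.Res

/-!
# SNP-T-CONJ: conjugates of roots of unity of order prime to `p`

(a) `near_int`: for `‖a‖ ≤ 1`, `‖a ^ p - a‖ < 1` there is a natural number `k < p` with `‖a - k‖ < 1`. PROOF. `∏_{k<p} (X - k) ≡ X ^ p - X` modulo `p` (in `(ZMod p)[X]`: `FiniteField.X_pow_card_sub_X...`/`ZMod` product
formula), so `‖∏_{k<p} (a - k) - (a ^ p - a)‖ < 1` and the product has norm `< 1`. (Or: if `‖a‖ < 1` take `0`; else `‖a ^ (p-1) - 1‖ < 1`, `root_near` gives `ζ ^ (p-1) = 1`, `‖a - ζ‖ < 1`; the `p - 1` roots of unity of order dividing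
`p - 1` are distinct modulo `m` (`root_unique`) and so are `1, .., p-1`, each of which is near one of them by `root_near` (Fermat): pigeonhole.)
(b) `conj_root`: for `ζ ^ n = 1`, `p ∤ n`, and an automorphism `σ` there is `i` with `σ ζ = ζ ^ (p ^ i)`.
PROOF. Let `f > 0` with `p ^ f ≡ 1` modulo `n` (`Nat.ModEq.pow_totient`), so `ζ ^ (p ^ f) = ζ`, and `P = ∏_{i<f} (X - C (ζ ^ (p ^ i)))`, coefficients of norm `≤ 1`. Modulo the maximal ideal `m`: Frobenius permutes the factors, so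
`‖P.coeff j ^ p - P.coeff j‖ < 1` (`P(X)^{frob} = ∏ (X - ζ ^ (p ^ (i+1))) = P` exactly for the polynomial with coefficients `P.coeff j ^ p` modulo `m`; work in the polynomial ring over the residue ring `R / m`, `R` = the subring of elements of norm `≤ 1`,
with the ring homomorphism Frobenius `frobenius (R/m) p`). By (a) there are integers `k_j` with `‖P.coeff j - k_j‖ < 1`; let `P₀ = ∑ k_j X ^ j ∈ ℤ[X]`. `‖P₀(ζ)‖ = ‖P₀(ζ) - P(ζ)‖ < 1`, so `‖P₀(σ ζ)‖ = ‖σ (P₀ ζ)‖ < 1` (`norm_aut`), so `‖P(σ ζ)‖ < 1`, so some factor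
`‖σ ζ - ζ ^ (p ^ i)‖ < 1`, so `σ ζ = ζ ^ (p ^ i)` by `root_unique`. (A version with the residue field `κ = R / m` and minimal polynomials over `ZMod p` is equally good.)
-/

set_option autoImplicit false

namespace Pool.Agent.SNP.T

variable {p : ℕ} [Fact p.Prime]

/-- the elements of norm at most one -/
private noncomputable def RR (p : ℕ) [Fact p.Prime] : Subring (PadicAlgCl p) where
  carrier := {x | ‖x‖ ≤ 1}
  mul_mem' := fun {a b} ha hb => by
    change ‖a * b‖ ≤ 1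
    rw [norm_mul]
    exact mul_le_one₀ ha (norm_nonneg _) hb
  one_mem' := by
    change ‖(1 : PadicAlgCl p)‖ ≤ 1
    rw [norm_one]
  add_mem' := fun {a b} ha hb => (IsUltrametricDist.norm_add_le_max a b).trans (max_le ha hb)
  zero_mem' := by
    change ‖(0 : PadicAlgCl p)‖ ≤ 1
    rw [norm_zero]
    exact zero_le_one
  neg_mem' := fun {a} ha => by
    change ‖-a‖ ≤ 1
    rw [norm_neg]
    exact ha

/-- the elements of norm less than one -/
private noncomputable def MM (p : ℕ) [Fact p.Prime] : Ideal (RR p) where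
  carrier := {x | ‖(x : PadicAlgCl p)‖ < 1}
  add_mem' := fun {a b} ha hb =>
    (IsUltrametricDist.norm_add_le_max (a : PadicAlgCl p) (b : PadicAlgCl p)).trans_lt
      (max_lt ha hb)
  zero_mem' := by
    change ‖(0 : PadicAlgCl p)‖ < 1
    rw [norm_zero]
    exact zero_lt_one
  smul_mem' := fun c x hx => by
    change ‖(c : PadicAlgCl p) * (x : PadicAlgCl p)‖ < 1
    rw [norm_mul]
    have h1 : ‖(c : PadicAlgCl p)‖ ≤ 1 := c.2
    have h2 : ‖(x : PadicAlgCl p)‖ < 1 := hx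
    calc ‖(c : PadicAlgCl p)‖ * ‖(x : PadicAlgCl p)‖ ≤ 1 * ‖(x : PadicAlgCl p)‖ :=
          mul_le_mul_of_nonneg_right h1 (norm_nonneg _)
      _ < 1 := by rwa [one_mul]

private theorem mem_MM (x : RR p) : x ∈ MM p ↔ ‖(x : PadicAlgCl p)‖ < 1 := Iff.rfl

private theorem MM_max : (MM p).IsMaximal := by
  rw [Ideal.isMaximal_iff]
  refine ⟨?_, ?_⟩
  · rw [mem_MM]
    change ¬ ‖(1 : PadicAlgCl p)‖ < 1
    rw [norm_one]
    exact lt_irrefl 1
  · intro J x _ hx hxJ
    rw [mem_MM, not_lt] at hx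
    have h1 : ‖(x : PadicAlgCl p)‖ = 1 := le_antisymm x.2 hx
    have hx0 : (x : PadicAlgCl p) ≠ 0 := by
      intro h0
      rw [h0, norm_zero] at h1
      exact zero_ne_one h1
    have hy : ‖(x : PadicAlgCl p)⁻¹‖ ≤ 1 := by
      rw [norm_inv, h1, inv_one]
    have : (1 : RR p) = (⟨(x : PadicAlgCl p)⁻¹, hy⟩ : RR p) * x := by
      apply Subtype.ext
      change (1 : PadicAlgCl p) = (x : PadicAlgCl p)⁻¹ * (x : PadicAlgCl p)
      rw [inv_mul_cancel₀ hx0]
    rw [this]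
    exact J.mul_mem_left _ hxJ

open Polynomial in
theorem conj_root {n : ℕ} (hn : 0 < n) (hp : ¬ p ∣ n) {ζ : PadicAlgCl p} (h : ζ ^ n = 1)
    (σ : PadicAlgCl p ≃ₐ[ℚ_[p]] PadicAlgCl p) : ∃ i : ℕ, σ ζ = ζ ^ (p ^ i) := by
  classical
  have hpp : p.Prime := Fact.out
  have hmax : (MM p).IsMaximal := MM_max
  let _ : Field (RR p ⧸ MM p) := Ideal.Quotient.field _
  set q : RR p →+* RR p ⧸ MM p := Ideal.Quotient.mk (MM p) with hqdef
  have hq : ∀ x : RR p, q x = 0 ↔ ‖(x : PadicAlgCl p)‖ < 1 := fun x =>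
    Ideal.Quotient.eq_zero_iff_mem
  have hchar : CharP (RR p ⧸ MM p) p := by
    refine (CharP.charP_iff_prime_eq_zero hpp).2 ?_
    have h1 : q ((p : ℕ) : RR p) = 0 := by
      rw [hq]
      change ‖((p : ℕ) : PadicAlgCl p)‖ < 1
      rw [norm_p]
      exact inv_lt_one_of_one_lt₀ (by exact_mod_cast hpp.one_lt)
    rwa [map_natCast] at h1
  have hσ1 : (σ ζ) ^ n = 1 := by rw [← map_pow, h, map_one]
  set z : RR p := ⟨ζ, (norm_root hn h).le⟩ with hz
  set w : RR p := ⟨σ ζ, (norm_root hn hσ1).le⟩ with hw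
  obtain ⟨f, hf, hzf⟩ : ∃ f : ℕ, 0 < f ∧ ζ ^ (p ^ f) = ζ := by
    refine ⟨n.totient, Nat.totient_pos.2 hn, ?_⟩
    have hcop : Nat.Coprime p n := (Nat.Prime.coprime_iff_not_dvd hpp).2 hp
    have hmod : p ^ n.totient % n = 1 % n := Nat.ModEq.pow_totient hcop
    calc ζ ^ (p ^ n.totient) = ζ ^ (p ^ n.totient % n) := pow_eq_pow_mod _ h
      _ = ζ ^ (1 % n) := by rw [hmod]
      _ = ζ ^ 1 := (pow_eq_pow_mod _ h).symm
      _ = ζ := pow_one ζ
  have hqz : (q z) ^ (p ^ f) = q z := by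
    rw [← map_pow]
    congr 1
    exact Subtype.ext hzf
  set g : ℕ → (RR p ⧸ MM p)[X] := fun i => X - C (q z ^ (p ^ i)) with hg
  set P : (RR p ⧸ MM p)[X] := ∏ i ∈ Finset.range f, g i with hP
  have hfrob : P.map (frobenius (RR p ⧸ MM p) p) = P := by
    have h1 : P.map (frobenius (RR p ⧸ MM p) p) = ∏ i ∈ Finset.range f, g (i + 1) := by
      rw [hP, Polynomial.map_prod]
      refine Finset.prod_congr rfl fun i _ => ?_
      simp only [hg]
      rw [Polynomial.map_sub, map_X, map_C, frobenius_def, ← pow_mul, pow_succ p i]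
    rw [h1]
    have h2 : (∏ i ∈ Finset.range f, g (i + 1)) * g 0 = P * g f := by
      rw [← Finset.prod_range_succ', hP, ← Finset.prod_range_succ]
    have h3 : g f = g 0 := by
      simp only [hg]
      rw [hqz, pow_zero, pow_one]
    rw [h3] at h2
    exact mul_right_cancel₀ (X_sub_C_ne_zero _) h2
  have hlift : P ∈ Polynomial.lifts (Int.castRingHom (RR p ⧸ MM p)) := by
    rw [Polynomial.lifts_iff_coeff_lifts]
    intro j
    have h1 : (P.coeff j) ^ p = P.coeff j := by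
      conv_rhs => rw [← hfrob, coeff_map, frobenius_def]
    obtain ⟨k, hk⟩ := (mem_bot_iff_intCast p (RR p ⧸ MM p)).1
      ((Subfield.mem_bot_iff_pow_eq_self (RR p ⧸ MM p) p).2 h1)
    exact ⟨k, hk⟩
  obtain ⟨P₀, hP₀⟩ := (Polynomial.mem_lifts _).1 hlift
  have hev : ∀ x : RR p, q (P₀.eval₂ (Int.castRingHom (RR p)) x) = P.eval (q x) := by
    intro x
    rw [hom_eval₂, ← hP₀, eval_map]
    congr 1
  have hsub : ∀ x : RR p, ((P₀.eval₂ (Int.castRingHom (RR p)) x : RR p) : PadicAlgCl p) =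
      P₀.eval₂ (Int.castRingHom (PadicAlgCl p)) (x : PadicAlgCl p) := by
    intro x
    have := hom_eval₂ P₀ (Int.castRingHom (RR p)) (RR p).subtype x
    rw [show (RR p).subtype.comp (Int.castRingHom (RR p)) = Int.castRingHom (PadicAlgCl p) from
      RingHom.ext_int _ _] at this
    exact this
  have hz0 : P.eval (q z) = 0 := by
    rw [hP, eval_prod]
    refine Finset.prod_eq_zero (Finset.mem_range.2 hf) ?_
    simp only [hg]
    rw [pow_zero, pow_one, eval_sub, eval_X, eval_C, sub_self]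
  have hn1 : ‖P₀.eval₂ (Int.castRingHom (PadicAlgCl p)) ζ‖ < 1 := by
    have h1 := (hq _).1 ((hev z).trans hz0)
    rw [hsub] at h1
    exact h1
  have hn2 : ‖P₀.eval₂ (Int.castRingHom (PadicAlgCl p)) (σ ζ)‖ < 1 := by
    have h1 := hom_eval₂ P₀ (Int.castRingHom (PadicAlgCl p)) (σ : PadicAlgCl p →+* PadicAlgCl p) ζ
    rw [show (σ : PadicAlgCl p →+* PadicAlgCl p).comp (Int.castRingHom (PadicAlgCl p)) =
      Int.castRingHom (PadicAlgCl p) from RingHom.ext_int _ _] at h1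
    have h2 : P₀.eval₂ (Int.castRingHom (PadicAlgCl p)) (σ ζ) =
        σ (P₀.eval₂ (Int.castRingHom (PadicAlgCl p)) ζ) := h1.symm
    rw [h2, norm_aut]
    exact hn1
  have hw0 : P.eval (q w) = 0 := by
    rw [← hev w, hq, hsub]
    exact hn2
  rw [hP, eval_prod, Finset.prod_eq_zero_iff] at hw0
  obtain ⟨i, -, hi⟩ := hw0
  refine ⟨i, ?_⟩
  simp only [hg] at hi
  rw [eval_sub, eval_X, eval_C, ← map_pow, ← map_sub, hq] at hi
  have hi' : ‖σ ζ - ζ ^ (p ^ i)‖ < 1 := hi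
  refine root_unique hn hp hσ1 ?_ hi'
  rw [← pow_mul, mul_comm, pow_mul, h, one_pow]

end Pool.Agent.SNP.T
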