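import Pool.Agent.SNP.T.Res

/-!
# SNP-T-PHI: a lift of Frobenius

PROOF. `G = (PadicAlgCl p ≃ₐ[ℚ_[p]] PadicAlgCl p)` with the Krull topology is a compact totally disconnected topological group, `PadicAlgCl p / ℚ_[p]` is Galois (characteristic zero, algebraically closed: normal).
Let `B` be the subring (subalgebra over `A = ℤ_[p]`) of `Ω` of the elements of norm `≤ 1` (`norm_aut`: `G` acts on it), with the DISCRETE topology (put `letI : TopologicalSpace B := ⊥`; the action is continuous
because stabilizers of elements of `Ω` are open in the Krull topology: for example `stabilizer_isOpen..`, `IntermediateField.fixingSubgroup_isOpen`), `Q` the ideal of the elements of norm `< 1` (prime), `P = Q.under A`.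
`Algebra.IsInvariant A B G`: an element fixed by `G` lies in `ℚ_[p]` (`InfiniteGalois.mem_bot_iff_fixed` or similar), and has norm `≤ 1`.
Frobenius `y ↦ y ^ p` is an `A / P`-algebra automorphism of `B / Q`: it is injective (`B / Q` is a domain), surjective (`Ω` is algebraically closed: `y ^ p = x` has a solution, of norm `≤ 1`), it fixes `A / P`
(every element of `ℤ_[p]` is congruent to a natural number modulo `p`, Fermat; `PadicInt.exists_mem_range` or `PadicInt.zmodRepr`). `Ideal.Quotient.stabilizerHom_surjective_of_profinite`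
(`Mathlib/RingTheory/Invariant/Profinite.lean`) gives `Φ ∈ G` which induces it. (Alternatively a compactness argument of your own: for every finite Galois
`L / ℚ_p` inside `Ω` the set of `σ ∈ G` with `‖σ x - x ^ p‖ < 1` for all `x ∈ L`, `‖x‖ ≤ 1` is nonempty closed, these sets are directed.)
-/

set_option autoImplicit false

namespace Pool.Agent.SNP.T

variable {p : ℕ} [Fact p.Prime]

private def integ (p : ℕ) [Fact p.Prime] : Subring (PadicAlgCl p) where
  carrier := {x | ‖x‖ ≤ 1}
  mul_mem' {a b} ha hb := by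
    have ha' : ‖a‖ ≤ 1 := ha
    have hb' : ‖b‖ ≤ 1 := hb
    change ‖a * b‖ ≤ 1
    rw [norm_mul]; exact mul_le_one₀ ha' (norm_nonneg _) hb'
  one_mem' := by
    change ‖(1 : PadicAlgCl p)‖ ≤ 1
    rw [norm_one]
  add_mem' {a b} ha hb := (IsUltrametricDist.norm_add_le_max a b).trans (max_le ha hb)
  zero_mem' := by
    change ‖(0 : PadicAlgCl p)‖ ≤ 1
    rw [norm_zero]; exact zero_le_one
  neg_mem' {a} ha := by
    change ‖-a‖ ≤ 1
    rw [norm_neg]; exact ha

private def RR (p : ℕ) [Fact p.Prime] : Type := integ p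

private noncomputable instance instCR : CommRing (RR p) := inferInstanceAs (CommRing (integ p))

private instance instTop : TopologicalSpace (RR p) := ⊥

private instance instDisc : DiscreteTopology (RR p) := ⟨rfl⟩

private noncomputable def inc (p : ℕ) [Fact p.Prime] : RR p →+* PadicAlgCl p := (integ p).subtype

private lemma inc_inj : Function.Injective (inc p) := Subtype.val_injective

private lemma inc_norm (x : RR p) : ‖inc p x‖ ≤ 1 := x.2

private noncomputable def mkR (x : PadicAlgCl p) (hx : ‖x‖ ≤ 1) : RR p := ⟨x, hx⟩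

private lemma inc_mkR (x : PadicAlgCl p) (hx : ‖x‖ ≤ 1) : inc p (mkR x hx) = x := rfl

private noncomputable instance instAct :
    MulSemiringAction (PadicAlgCl p ≃ₐ[ℚ_[p]] PadicAlgCl p) (RR p) where
  smul g x := mkR (g (inc p x)) (by rw [norm_aut]; exact inc_norm x)
  one_smul x := inc_inj rfl
  mul_smul g h x := inc_inj rfl
  smul_zero g := inc_inj (by
    change g (inc p 0) = inc p 0
    rw [map_zero, map_zero])
  smul_add g x y := inc_inj (by
    change g (inc p (x + y)) = inc p (_ + _)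
    rw [map_add, map_add, map_add]; rfl)
  smul_one g := inc_inj (by
    change g (inc p 1) = inc p 1
    rw [map_one, map_one])
  smul_mul g x y := inc_inj (by
    change g (inc p (x * y)) = inc p (_ * _)
    rw [map_mul, map_mul, map_mul]; rfl)

private lemma inc_smul (g : PadicAlgCl p ≃ₐ[ℚ_[p]] PadicAlgCl p) (x : RR p) :
    inc p (g • x) = g (inc p x) := rfl

private lemma norm_int_le (a : ℤ_[p]) : ‖algebraMap ℚ_[p] (PadicAlgCl p) (a : ℚ_[p])‖ ≤ 1 := by
  rw [PadicAlgCl.norm_extends]
  exact a.2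

private noncomputable instance instAlg : Algebra ℤ_[p] (RR p) :=
  RingHom.toAlgebra
    (((algebraMap ℚ_[p] (PadicAlgCl p)).comp PadicInt.Coe.ringHom).codRestrict (integ p)
      (fun x => norm_int_le x) : ℤ_[p] →+* RR p)

private lemma inc_algebraMap (a : ℤ_[p]) :
    inc p (algebraMap ℤ_[p] (RR p) a) = algebraMap ℚ_[p] (PadicAlgCl p) (a : ℚ_[p]) := rfl

private instance instComm : SMulCommClass (PadicAlgCl p ≃ₐ[ℚ_[p]] PadicAlgCl p) ℤ_[p] (RR p) where
  smul_comm g a x := inc_inj (by
    rw [Algebra.smul_def, Algebra.smul_def, inc_smul, map_mul, map_mul, map_mul, inc_algebraMap,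
      AlgEquiv.commutes, inc_smul])

private instance instCont : ContinuousSMul (PadicAlgCl p ≃ₐ[ℚ_[p]] PadicAlgCl p) (RR p) := by
  rw [continuousSMul_iff_stabilizer_isOpen]
  intro x
  have h := stabilizer_isOpen_of_isIntegral (K := ℚ_[p]) (inc p x)
  have h2 : (MulAction.stabilizer (PadicAlgCl p ≃ₐ[ℚ_[p]] PadicAlgCl p) x :
      Set (PadicAlgCl p ≃ₐ[ℚ_[p]] PadicAlgCl p)) =
      (MulAction.stabilizer (PadicAlgCl p ≃ₐ[ℚ_[p]] PadicAlgCl p) (inc p x) : Set _) := by
    ext g
    rw [SetLike.mem_coe, SetLike.mem_coe, MulAction.mem_stabilizer_iff,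
      MulAction.mem_stabilizer_iff, ← inc_inj.eq_iff, inc_smul]
    rfl
  rw [h2]
  exact h

private instance instInv :
    Algebra.IsInvariant ℤ_[p] (RR p) (PadicAlgCl p ≃ₐ[ℚ_[p]] PadicAlgCl p) where
  isInvariant b hb := by
    have h : inc p b ∈ Set.range (algebraMap ℚ_[p] (PadicAlgCl p)) := by
      rw [InfiniteGalois.mem_range_algebraMap_iff_fixed]
      intro g
      rw [← inc_smul, hb]
    obtain ⟨a, ha⟩ := h
    have hn : ‖a‖ ≤ 1 := by
      have := inc_norm b
      rw [← ha, PadicAlgCl.norm_extends] at this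
      exact this
    exact ⟨⟨a, hn⟩, inc_inj (by rw [inc_algebraMap]; exact ha)⟩

private noncomputable def QQ (p : ℕ) [Fact p.Prime] : Ideal (RR p) where
  carrier := {x | ‖inc p x‖ < 1}
  add_mem' {a b} ha hb := by
    change ‖inc p (a + b)‖ < 1
    rw [map_add]
    exact (IsUltrametricDist.norm_add_le_max _ _).trans_lt (max_lt ha hb)
  zero_mem' := by
    change ‖inc p 0‖ < 1
    rw [map_zero, norm_zero]; exact zero_lt_one
  smul_mem' c x hx := by
    change ‖inc p (c * x)‖ < 1
    rw [map_mul, norm_mul]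
    exact (mul_le_of_le_one_left (norm_nonneg _) (inc_norm c)).trans_lt hx

private lemma mem_QQ (x : RR p) : x ∈ QQ p ↔ ‖inc p x‖ < 1 := Iff.rfl

private instance instPrime : (QQ p).IsPrime where
  ne_top' := by
    intro h
    have h1 : (1 : RR p) ∈ QQ p := by rw [h]; trivial
    rw [mem_QQ, map_one, norm_one] at h1
    exact lt_irrefl _ h1
  mem_or_mem' {x y} h := by
    rw [mem_QQ, map_mul, norm_mul] at h
    by_contra hc
    rw [not_or, mem_QQ, mem_QQ, not_lt, not_lt] at hc
    have := one_le_mul_of_one_le_of_one_le hc.1 hc.2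
    exact absurd h (not_lt.mpr this)

private instance instChar : CharP (RR p ⧸ QQ p) p := by
  rw [CharP.charP_iff_prime_eq_zero (Fact.out : p.Prime)]
  have : ((p : RR p) : RR p) ∈ QQ p := by
    rw [mem_QQ, map_natCast, norm_p]
    exact inv_lt_one_of_one_lt₀ (by exact_mod_cast (Fact.out : p.Prime).one_lt)
  have h := Ideal.Quotient.eq_zero_iff_mem.mpr this
  rwa [map_natCast] at h

private noncomputable def frobHom (p : ℕ) [Fact p.Prime] :
    (RR p ⧸ QQ p) →ₐ[ℤ_[p] ⧸ (QQ p).under ℤ_[p]] (RR p ⧸ QQ p) :=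
  { frobenius (RR p ⧸ QQ p) p with
    commutes' := by
      intro a
      obtain ⟨a, rfl⟩ := Ideal.Quotient.mk_surjective a
      change frobenius (RR p ⧸ QQ p) p (Ideal.Quotient.mk _ (algebraMap ℤ_[p] (RR p) a)) =
        Ideal.Quotient.mk _ (algebraMap ℤ_[p] (RR p) a)
      obtain ⟨n, hn⟩ : ∃ n : ℕ, ‖a - (n : ℤ_[p])‖ < 1 := by
        refine ⟨a.zmodRepr, ?_⟩
        have := a.sub_zmodRepr_mem
        rwa [IsLocalRing.mem_maximalIdeal, PadicInt.mem_nonunits] at this
      have h : Ideal.Quotient.mk (QQ p) (algebraMap ℤ_[p] (RR p) a) = (n : RR p ⧸ QQ p) := by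
        rw [← map_natCast (Ideal.Quotient.mk (QQ p)), Ideal.Quotient.eq, mem_QQ, map_sub,
          map_natCast, inc_algebraMap, ← map_natCast (algebraMap ℚ_[p] (PadicAlgCl p)), ← map_sub,
          PadicAlgCl.norm_extends]
        have : ‖((a - (n : ℤ_[p]) : ℤ_[p]) : ℚ_[p])‖ < 1 := hn
        rwa [PadicInt.coe_sub, PadicInt.coe_natCast] at this
      rw [h, map_natCast] }

private lemma frobHom_apply (x : RR p ⧸ QQ p) : frobHom p x = x ^ p := rfl

private lemma frobHom_bij : Function.Bijective (frobHom p) := by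
  constructor
  · exact frobenius_inj (RR p ⧸ QQ p) p
  · intro y
    obtain ⟨y, rfl⟩ := Ideal.Quotient.mk_surjective y
    obtain ⟨z, hz⟩ := IsAlgClosed.exists_pow_nat_eq (inc p y) (Fact.out : p.Prime).pos
    have hn : ‖z‖ ≤ 1 := by
      have := inc_norm y
      rw [← hz, norm_pow] at this
      exact (pow_le_one_iff_of_nonneg (norm_nonneg z) (Fact.out : p.Prime).pos.ne').mp this
    refine ⟨Ideal.Quotient.mk _ (mkR z hn), ?_⟩
    rw [frobHom_apply, ← map_pow]
    congr 1
    apply inc_inj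
    rw [map_pow, inc_mkR, hz]

theorem exists_phi (p : ℕ) [Fact p.Prime] : ∃ Φ : PadicAlgCl p ≃ₐ[ℚ_[p]] PadicAlgCl p,
    ∀ x : PadicAlgCl p, ‖x‖ ≤ 1 → ‖Φ x - x ^ p‖ < 1 := by
  obtain ⟨g, hg⟩ := Ideal.Quotient.stabilizerHom_surjective_of_profinite
    (G := PadicAlgCl p ≃ₐ[ℚ_[p]] PadicAlgCl p) ((QQ p).under ℤ_[p]) (QQ p)
    (AlgEquiv.ofBijective (frobHom p) frobHom_bij)
  refine ⟨g.1, fun x hx => ?_⟩
  have h := DFunLike.congr_fun hg (Ideal.Quotient.mk (QQ p) (mkR x hx))
  rw [Ideal.Quotient.stabilizerHom_apply] at h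
  have h2 : Ideal.Quotient.mk (QQ p) (g • mkR x hx) = Ideal.Quotient.mk (QQ p) (mkR x hx ^ p) := by
    rw [h, map_pow]; rfl
  rw [Ideal.Quotient.eq, mem_QQ, map_sub, map_pow, inc_mkR] at h2
  exact h2

end Pool.Agent.SNP.T
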