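import Pool.Agent.SNP.T.Base

/-!
# SNP-T-RES: the residue field of `Ω` is algebraic over the prime field

(a) `exists_frob_pow`. For `‖x‖ ≤ 1` there is `f > 0` with `‖x ^ (p ^ f) - x‖ < 1`.
PROOF. Let `R` be the subring of `Ω` of the elements of norm `≤ 1`, `m` the ideal of the elements of norm `< 1`, a maximal ideal, `κ = R / m`, a field of characteristic `p`. The element `x` is
integral over `ℤ_[p]` (norm `≤ 1` of the spectral norm means that the minimal polynomial over `ℚ_p` has coefficients of norm `≤ 1`: `spectralValue`, `spectralValue_le_one_iff` or similar lemmas in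
`Mathlib/Analysis/Normed/Unbundled/SpectralNorm.lean`), so its class `x̄` is a root of a monic polynomial over `ZMod p` (the residue field of `ℤ_[p]`), so `x̄` is algebraic over the prime field `ZMod p` of `κ`;
`(ZMod p)⟮x̄⟯` is a finite field `F` (finite dimensional over a finite field), so `x̄ ^ (card F) = x̄` and `card F = p ^ f` (`FiniteField.pow_card`, `FiniteField.card`), `f > 0`.
(b) `exists_root_near`. For `‖x‖ = 1` there are `n > 0` prime to `p` and `ζ` with `ζ ^ n = 1`, `‖x - ζ‖ < 1`. PROOF. `n = p ^ f - 1`; `‖x‖ ‖x ^ n - 1‖ = ‖x ^ (p ^ f) - x‖ < 1`; `root_near`.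
-/

set_option autoImplicit false

namespace Pool.Agent.SNP.T

variable {p : ℕ} [Fact p.Prime]

private theorem sum_lt {ι : Type*} (s : Finset ι) (f : ι → PadicAlgCl p)
    (h : ∀ i ∈ s, ‖f i‖ < 1) : ‖∑ i ∈ s, f i‖ < 1 := by
  classical
  induction s using Finset.induction_on with
  | empty => simp
  | insert a s ha ih =>
    rw [Finset.sum_insert ha]
    refine lt_of_le_of_lt (IsUltrametricDist.norm_add_le_max _ _) (max_lt ?_ ?_)
    · exact h a (Finset.mem_insert_self a s)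
    · exact ih fun i hi => h i (Finset.mem_insert_of_mem hi)

private theorem sub_le_max (a b : PadicAlgCl p) : ‖a - b‖ ≤ max ‖a‖ ‖b‖ := by
  have h := IsUltrametricDist.norm_add_le_max a (-b)
  rwa [norm_neg, ← sub_eq_add_neg] at h

private theorem norm_int_le (n : ℤ) : ‖(n : PadicAlgCl p)‖ ≤ 1 := by
  obtain ⟨m, rfl | rfl⟩ := n.eq_nat_or_neg
  · rw [Int.cast_natCast]
    exact norm_nat_le m
  · rw [Int.cast_neg, Int.cast_natCast, norm_neg]
    exact norm_nat_le m

private theorem norm_aeval_le {x : PadicAlgCl p} (hx : ‖x‖ ≤ 1) (Q : Polynomial ℤ) :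
    ‖Polynomial.aeval x Q‖ ≤ 1 := by
  rw [Polynomial.aeval_eq_sum_range]
  refine IsUltrametricDist.norm_sum_le_of_forall_le_of_nonneg zero_le_one ?_
  intro i _
  rw [zsmul_eq_mul, norm_mul, norm_pow]
  exact mul_le_one₀ (norm_int_le _) (by positivity) (pow_le_one₀ (norm_nonneg _) hx)

private theorem p_lt : ‖(p : PadicAlgCl p)‖ < 1 := by
  rw [norm_p]
  have h1 : (1 : ℝ) < p := by exact_mod_cast (Fact.out : p.Prime).one_lt
  exact inv_lt_one_of_one_lt₀ h1

private theorem norm_aeval_lt {x : PadicAlgCl p} (hx : ‖x‖ ≤ 1) (Q : Polynomial ℤ)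
    (hQ : ∀ i, (p : ℤ) ∣ Q.coeff i) : ‖Polynomial.aeval x Q‖ < 1 := by
  rw [Polynomial.aeval_eq_sum_range]
  refine sum_lt _ _ ?_
  intro i _
  obtain ⟨c, hc⟩ := hQ i
  rw [hc, zsmul_eq_mul, Int.cast_mul, norm_mul, norm_mul, norm_pow, Int.cast_natCast]
  have h1 := norm_int_le (p := p) c
  have h2 : ‖x‖ ^ i ≤ 1 := pow_le_one₀ (norm_nonneg _) hx
  calc ‖(p : PadicAlgCl p)‖ * ‖(c : PadicAlgCl p)‖ * ‖x‖ ^ i
      ≤ ‖(p : PadicAlgCl p)‖ * 1 * 1 := by gcongr
    _ < 1 := by rw [mul_one, mul_one]; exact p_lt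

/-- a monic integral polynomial which is small at `x` -/
private theorem exists_poly {x : PadicAlgCl p} (hx : ‖x‖ ≤ 1) :
    ∃ Q : Polynomial ℤ, Q.Monic ∧ ‖Polynomial.aeval x Q‖ < 1 := by
  have hint : IsIntegral ℚ_[p] x := Algebra.IsIntegral.isIntegral x
  let P := minpoly ℚ_[p] x
  have hP : P.Monic := minpoly.monic hint
  have hcoef : ∀ n, ‖P.coeff n‖ ≤ 1 := (spectralValue_le_one_iff hP).1 hx
  have hn : ∀ n, ∃ m : ℕ, ‖P.coeff n - (m : ℚ_[p])‖ < 1 := by
    intro n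
    obtain ⟨m, _, hm⟩ := PadicInt.exists_mem_range (p := p) ⟨P.coeff n, hcoef n⟩
    refine ⟨m, ?_⟩
    rw [PadicInt.maximalIdeal_eq_span_p, Ideal.mem_span_singleton,
      ← PadicInt.norm_lt_one_iff_dvd] at hm
    exact hm
  choose c hc using hn
  let R : Polynomial ℤ := ∑ i : Fin P.natDegree, Polynomial.C (c i : ℤ) * Polynomial.X ^ (i : ℕ)
  refine ⟨Polynomial.X ^ P.natDegree + R, ?_, ?_⟩
  · exact Polynomial.monic_X_pow_add (Polynomial.degree_sum_fin_lt fun i => (c i : ℤ))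
  · have h0 : Polynomial.aeval x P = 0 := minpoly.aeval _ _
    have h1 : Polynomial.aeval x P = x ^ P.natDegree +
        ∑ i ∈ Finset.range P.natDegree, algebraMap ℚ_[p] (PadicAlgCl p) (P.coeff i) * x ^ i := by
      conv_lhs => rw [hP.as_sum]
      simp only [map_add, map_pow, map_sum, map_mul, Polynomial.aeval_X, Polynomial.aeval_C]
    have h2 : Polynomial.aeval x (Polynomial.X ^ P.natDegree + R) = x ^ P.natDegree +
        ∑ i ∈ Finset.range P.natDegree, (c i : PadicAlgCl p) * x ^ i := by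
      rw [← Fin.sum_univ_eq_sum_range (fun i => (c i : PadicAlgCl p) * x ^ i)]
      simp only [R, map_add, map_pow, map_sum, map_mul, Polynomial.aeval_X, Polynomial.aeval_C]
      simp
    have h3 : Polynomial.aeval x (Polynomial.X ^ P.natDegree + R) =
        ∑ i ∈ Finset.range P.natDegree,
          ((c i : PadicAlgCl p) - algebraMap ℚ_[p] (PadicAlgCl p) (P.coeff i)) * x ^ i := by
      rw [h2]
      have h4 := h1.symm.trans h0
      rw [eq_neg_of_add_eq_zero_left h4, ← Finset.sum_neg_distrib, ← Finset.sum_add_distrib]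
      refine Finset.sum_congr rfl fun i _ => ?_
      ring
    rw [h3]
    refine sum_lt _ _ fun i _ => ?_
    have h5 : (c i : PadicAlgCl p) - algebraMap ℚ_[p] (PadicAlgCl p) (P.coeff i) =
        algebraMap ℚ_[p] (PadicAlgCl p) ((c i : ℚ_[p]) - P.coeff i) := by
      rw [map_sub, map_natCast]
    have h6 : ‖algebraMap ℚ_[p] (PadicAlgCl p) ((c i : ℚ_[p]) - P.coeff i)‖ < 1 := by
      have h7 := PadicAlgCl.norm_extends p ((c i : ℚ_[p]) - P.coeff i)
      rw [h7, norm_sub_rev]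
      exact hc i
    rw [norm_mul, h5, norm_pow]
    have h8 : ‖x‖ ^ i ≤ 1 := pow_le_one₀ (norm_nonneg _) hx
    calc ‖algebraMap ℚ_[p] (PadicAlgCl p) ((c i : ℚ_[p]) - P.coeff i)‖ * ‖x‖ ^ i
        ≤ ‖algebraMap ℚ_[p] (PadicAlgCl p) ((c i : ℚ_[p]) - P.coeff i)‖ * 1 := by gcongr
      _ < 1 := by rw [mul_one]; exact h6

/-- pigeonhole: two of the powers `x ^ (p ^ i)` are close to each other -/
private theorem exists_close {x : PadicAlgCl p} (hx : ‖x‖ ≤ 1) :
    ∃ i j : ℕ, i < j ∧ ‖x ^ (p ^ i) - x ^ (p ^ j)‖ < 1 := by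
  obtain ⟨Q, hQ, hQx⟩ := exists_poly hx
  have hred : ∀ n : ℕ, ‖x ^ n - Polynomial.aeval x ((Polynomial.X ^ n : Polynomial ℤ) %ₘ Q)‖ < 1 := by
    intro n
    have h1 := Polynomial.modByMonic_add_div (Polynomial.X ^ n : Polynomial ℤ) Q
    have h2 : x ^ n = Polynomial.aeval x ((Polynomial.X ^ n : Polynomial ℤ) %ₘ Q) +
        Polynomial.aeval x Q * Polynomial.aeval x ((Polynomial.X ^ n : Polynomial ℤ) /ₘ Q) := by
      conv_lhs => rw [← Polynomial.aeval_X (R := ℤ) x, ← map_pow, ← h1]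
      rw [map_add, map_mul]
    rw [h2, add_sub_cancel_left, norm_mul]
    calc ‖Polynomial.aeval x Q‖ * ‖Polynomial.aeval x ((Polynomial.X ^ n : Polynomial ℤ) /ₘ Q)‖
        ≤ ‖Polynomial.aeval x Q‖ * 1 := by
          gcongr
          exact norm_aeval_le hx _
      _ < 1 := by rw [mul_one]; exact hQx
  let g : ℕ → (Fin Q.natDegree → ZMod p) := fun n i =>
    (((Polynomial.X ^ (p ^ n) : Polynomial ℤ) %ₘ Q).coeff i : ZMod p)
  obtain ⟨a, b, hab, hg⟩ := Finite.exists_ne_map_eq_of_infinite g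
  have key : ‖x ^ (p ^ a) - x ^ (p ^ b)‖ < 1 := by
    have hdiv : ∀ i, (p : ℤ) ∣ (((Polynomial.X ^ (p ^ a) : Polynomial ℤ) %ₘ Q) -
        ((Polynomial.X ^ (p ^ b) : Polynomial ℤ) %ₘ Q)).coeff i := by
      intro i
      rw [Polynomial.coeff_sub]
      by_cases hi : i < Q.natDegree
      · have h1 := congrFun hg ⟨i, hi⟩
        simp only [g] at h1
        rw [← ZMod.intCast_zmod_eq_zero_iff_dvd, Int.cast_sub, h1, sub_self]
      · have hz : ∀ n : ℕ, ((Polynomial.X ^ n : Polynomial ℤ) %ₘ Q).coeff i = 0 := by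
          intro n
          by_cases hQ1 : Q = 1
          · subst hQ1
            simp
          · refine Polynomial.coeff_eq_zero_of_natDegree_lt ?_
            have := Polynomial.natDegree_modByMonic_lt (Polynomial.X ^ n : Polynomial ℤ) hQ hQ1
            omega
        rw [hz, hz, sub_zero]
        exact dvd_zero _
    have h2 := norm_aeval_lt hx _ hdiv
    rw [map_sub] at h2
    have h3 := hred (p ^ a)
    have h4 := hred (p ^ b)
    have h5 : x ^ (p ^ a) - x ^ (p ^ b) =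
        (x ^ (p ^ a) - Polynomial.aeval x ((Polynomial.X ^ (p ^ a) : Polynomial ℤ) %ₘ Q)) +
        ((Polynomial.aeval x ((Polynomial.X ^ (p ^ a) : Polynomial ℤ) %ₘ Q) -
          Polynomial.aeval x ((Polynomial.X ^ (p ^ b) : Polynomial ℤ) %ₘ Q)) -
        (x ^ (p ^ b) - Polynomial.aeval x ((Polynomial.X ^ (p ^ b) : Polynomial ℤ) %ₘ Q))) := by
      ring
    rw [h5]
    refine lt_of_le_of_lt (IsUltrametricDist.norm_add_le_max _ _) (max_lt h3 ?_)
    exact lt_of_le_of_lt (sub_le_max _ _) (max_lt h2 h4)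
  rcases lt_or_gt_of_ne hab with h | h
  · exact ⟨a, b, h, key⟩
  · exact ⟨b, a, h, by rw [norm_sub_rev]; exact key⟩

variable (p) in
/-- the elements of norm at most one -/
private noncomputable def ring1 : Subring (PadicAlgCl p) where
  carrier := {z | ‖z‖ ≤ 1}
  mul_mem' := fun {a b} ha hb => by
    simp only [Set.mem_ofPred_eq] at ha hb ⊢
    rw [norm_mul]
    exact mul_le_one₀ ha (norm_nonneg _) hb
  one_mem' := by simp
  add_mem' := fun {a b} ha hb => by
    simp only [Set.mem_ofPred_eq] at ha hb ⊢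
    exact (IsUltrametricDist.norm_add_le_max _ _).trans (max_le ha hb)
  zero_mem' := by simp
  neg_mem' := fun {a} ha => by
    simp only [Set.mem_ofPred_eq] at ha ⊢
    rw [norm_neg]
    exact ha

private theorem pow_formula {u v : PadicAlgCl p} (hu : ‖u‖ ≤ 1) (hv : ‖v‖ ≤ 1) :
    ∃ r : PadicAlgCl p, ‖r‖ ≤ 1 ∧ u ^ p = (u - v) ^ p + v ^ p + p * r := by
  have hp : p.Prime := Fact.out
  obtain ⟨U, hU⟩ : ∃ U : ring1 p, (U : PadicAlgCl p) = u := ⟨⟨u, hu⟩, rfl⟩
  obtain ⟨W, hW⟩ : ∃ W : ring1 p, (W : PadicAlgCl p) = v := ⟨⟨v, hv⟩, rfl⟩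
  obtain ⟨r, hr⟩ := exists_add_pow_prime_eq hp (U - W) W
  refine ⟨((U - W) * W * r : ring1 p), ((U - W) * W * r : ring1 p).2, ?_⟩
  rw [sub_add_cancel] at hr
  have hr' := congrArg (Subring.subtype (ring1 p)) hr
  simp only [map_pow, map_add, map_mul, map_sub, map_natCast, Subring.coe_subtype] at hr'
  rw [hU, hW] at hr'
  have h1 : (((U - W) * W * r : ring1 p) : PadicAlgCl p) = (u - v) * v * (r : PadicAlgCl p) := by
    rw [← hU, ← hW]
    rfl
  rw [h1, hr']
  ring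

private theorem frob_inj {u v : PadicAlgCl p} (hu : ‖u‖ ≤ 1) (hv : ‖v‖ ≤ 1)
    (h : ‖u ^ p - v ^ p‖ < 1) : ‖u - v‖ < 1 := by
  obtain ⟨r, hr1, hr⟩ := pow_formula hu hv
  have h1 : (u - v) ^ p = (u ^ p - v ^ p) - (p : PadicAlgCl p) * r := by
    rw [hr]
    ring
  have h2 : ‖(u - v) ^ p‖ < 1 := by
    rw [h1]
    refine lt_of_le_of_lt (sub_le_max _ _) (max_lt h ?_)
    rw [norm_mul]
    calc ‖(p : PadicAlgCl p)‖ * ‖r‖ ≤ ‖(p : PadicAlgCl p)‖ * 1 := by
          gcongr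
      _ < 1 := by rw [mul_one]; exact p_lt
  rw [norm_pow] at h2
  by_contra hcon
  push Not at hcon
  exact absurd h2 (not_lt.2 (one_le_pow₀ hcon))

theorem exists_frob_pow {x : PadicAlgCl p} (hx : ‖x‖ ≤ 1) : ∃ f : ℕ, 0 < f ∧ ‖x ^ (p ^ f) - x‖ < 1 := by
  obtain ⟨i, j, hij, h⟩ := exists_close hx
  have key : ∀ i j : ℕ, i < j → ‖x ^ (p ^ i) - x ^ (p ^ j)‖ < 1 →
      ∃ f : ℕ, 0 < f ∧ ‖x ^ (p ^ f) - x‖ < 1 := by
    intro i
    induction i with
    | zero =>
      intro j hj h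
      refine ⟨j, hj, ?_⟩
      rw [norm_sub_rev]
      simpa using h
    | succ i ih =>
      intro j hj h
      obtain ⟨j, rfl⟩ : ∃ j', j = j' + 1 := ⟨j - 1, by omega⟩
      refine ih j (by omega) (frob_inj ?_ ?_ ?_)
      · rw [norm_pow]
        exact pow_le_one₀ (norm_nonneg _) hx
      · rw [norm_pow]
        exact pow_le_one₀ (norm_nonneg _) hx
      · rw [← pow_mul, ← pow_mul, ← pow_succ, ← pow_succ]
        exact h
  exact key i j hij h

theorem exists_root_near {x : PadicAlgCl p} (hx : ‖x‖ = 1) :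
    ∃ (n : ℕ) (ζ : PadicAlgCl p), 0 < n ∧ ¬ p ∣ n ∧ ζ ^ n = 1 ∧ ‖x - ζ‖ < 1 := by
  obtain ⟨f, hf, h⟩ := exists_frob_pow hx.le
  have hp : p.Prime := Fact.out
  have h1 : 1 < p ^ f := Nat.one_lt_pow hf.ne' hp.one_lt
  have hn : 0 < p ^ f - 1 := by omega
  have hx1 : ‖x ^ (p ^ f - 1) - 1‖ < 1 := by
    have h2 : x ^ (p ^ f) - x = x * (x ^ (p ^ f - 1) - 1) := by
      have h3 : x ^ (p ^ f) = x * x ^ (p ^ f - 1) := by
        rw [← pow_succ']
        congr 1
        omega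
      rw [h3]
      ring
    rw [h2, norm_mul, hx, one_mul] at h
    exact h
  obtain ⟨ζ, hζ, hd⟩ := root_near hn hx1
  refine ⟨p ^ f - 1, ζ, hn, ?_, hζ, hd⟩
  intro hdvd
  have h4 : p ∣ p ^ f := dvd_pow_self p hf.ne'
  have h5 : p ∣ 1 := by
    have h6 := (Nat.dvd_sub h4 hdvd)
    have h7 : p ^ f - (p ^ f - 1) = 1 := by omega
    rwa [h7] at h6
  exact hp.one_lt.ne' (Nat.dvd_one.1 h5)

end Pool.Agent.SNP.T
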