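import Pool.Agent.SNP.T.Conj

/-!
# SNP-T-VAL: the value group of the field generated by a root of unity of order prime to `p`

`val_adjoin`. Let `ζ ^ n = 1`, `p ∤ n`, `n > 0`. Every nonzero `x ∈ ℚ_[p]⟮ζ⟯` has norm an integral
power of `p`. PROOF. `x = r(ζ)` with `deg r < deg P`, `P = minpoly ζ`. The roots `s` of `P` in the
algebraic closure are the conjugates `σ ζ`, they are `deg P` roots of unity of order dividing `n`,
so they have pairwise distance `1` (`root_unique`), and `‖r(s)‖ = ‖σ x‖ = ‖x‖`. Lagrange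
interpolation gives `‖a_i‖ ≤ ‖x‖` for all coefficients of `r`, and `‖x‖ ≤ max ‖a_i‖` is clear.
-/

set_option autoImplicit false

namespace Pool.Agent.SNP.T

variable {p : ℕ} [Fact p.Prime]

open Polynomial

/-- The subring of the elements of norm at most one. -/
private def ballRing (p : ℕ) [Fact p.Prime] : Subring (PadicAlgCl p) where
  carrier := {x | ‖x‖ ≤ 1}
  mul_mem' := by
    intro a b ha hb
    simp only [Set.mem_ofPred_eq] at *
    rw [norm_mul]
    exact mul_le_one₀ ha (norm_nonneg _) hb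
  one_mem' := by simp
  add_mem' := by
    intro a b ha hb
    simp only [Set.mem_ofPred_eq] at *
    exact (PadicAlgCl.isNonarchimedean p a b).trans (max_le ha hb)
  zero_mem' := by simp
  neg_mem' := by
    intro a ha
    simp only [Set.mem_ofPred_eq] at *
    rwa [norm_neg]

private lemma mem_lifts_ball {q : (PadicAlgCl p)[X]} (hq : q ∈ lifts (ballRing p).subtype) (i : ℕ) :
    ‖q.coeff i‖ ≤ 1 := by
  rw [lifts_iff_coeff_lifts] at hq
  obtain ⟨y, hy⟩ := hq i
  rw [← hy]
  exact y.2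

private lemma C_lifts_ball {c : PadicAlgCl p} (hc : ‖c‖ ≤ 1) : C c ∈ lifts (ballRing p).subtype :=
  C_mem_lifts (ballRing p).subtype ⟨c, hc⟩

private lemma X_sub_C_lifts_ball {c : PadicAlgCl p} (hc : ‖c‖ ≤ 1) :
    (X - C c) ∈ lifts (ballRing p).subtype := by
  rw [sub_eq_add_neg, ← C_neg]
  exact add_mem (X_mem_lifts _) (C_lifts_ball (by rwa [norm_neg]))

private lemma norm_sum_le' {ι : Type*} (s : Finset ι) (f : ι → PadicAlgCl p) {c : ℝ} (hc : 0 ≤ c)
    (h : ∀ i ∈ s, ‖f i‖ ≤ c) : ‖∑ i ∈ s, f i‖ ≤ c :=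
  IsUltrametricDist.norm_sum_le_of_forall_le_of_nonneg hc h

open scoped IntermediateField in
theorem val_adjoin {n : ℕ} (hn : 0 < n) (hp : ¬ p ∣ n) {ζ : PadicAlgCl p} (h : ζ ^ n = 1)
    {x : PadicAlgCl p} (hx : x ∈ ℚ_[p]⟮ζ⟯) (hx0 : x ≠ 0) : ∃ k : ℤ, ‖x‖ = (p : ℝ) ^ k := by
  classical
  have halg : IsAlgebraic ℚ_[p] ζ := Algebra.IsAlgebraic.isAlgebraic ζ
  have hint : IsIntegral ℚ_[p] ζ := halg.isIntegral
  set P : ℚ_[p][X] := minpoly ℚ_[p] ζ with hP
  have hPm : P.Monic := minpoly.monic hint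
  -- a representing polynomial
  obtain ⟨r, hrd, hrx⟩ : ∃ r : ℚ_[p][X], r.degree < P.degree ∧ aeval ζ r = x := by
    have h1 : x ∈ Algebra.adjoin ℚ_[p] {ζ} := by
      rw [← IntermediateField.adjoin_simple_toSubalgebra_of_isAlgebraic halg]
      exact hx
    rw [Algebra.adjoin_singleton_eq_range_aeval] at h1
    obtain ⟨q, hq⟩ := h1
    refine ⟨q %ₘ P, degree_modByMonic_lt _ hPm, ?_⟩
    rw [← hq]
    exact (aeval_modByMonic_eq_self_of_root (minpoly.aeval _ _))
  have hr0 : r ≠ 0 := by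
    rintro rfl
    exact hx0 (by rw [← hrx, map_zero])
  -- the conjugates
  set S : Finset (PadicAlgCl p) := (P.rootSet (PadicAlgCl p)).toFinset with hS
  have hScard : S.card = P.natDegree := by
    have := card_rootSet_eq_natDegree (K := PadicAlgCl p)
      (minpoly.irreducible hint).separable (IsAlgClosed.splits _)
    rw [hS, Set.toFinset_card]
    exact this
  have hSσ : ∀ s ∈ S, ∃ σ : PadicAlgCl p ≃ₐ[ℚ_[p]] PadicAlgCl p, σ ζ = s := by
    intro s hs
    rw [hS, Set.mem_toFinset] at hs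
    exact minpoly.exists_algEquiv_of_root' halg ((mem_rootSet.1 hs).2)
  have hSn : ∀ s ∈ S, s ^ n = 1 := by
    intro s hs
    obtain ⟨σ, rfl⟩ := hSσ s hs
    rw [← map_pow, h, map_one]
  have hS1 : ∀ s ∈ S, ‖s‖ ≤ 1 := fun s hs => (norm_root hn (hSn s hs)).le
  have hSx : ∀ s ∈ S, ‖aeval s r‖ = ‖x‖ := by
    intro s hs
    obtain ⟨σ, rfl⟩ := hSσ s hs
    have : aeval (σ ζ) r = σ (aeval ζ r) := by
      have := Polynomial.aeval_algHom_apply (σ : PadicAlgCl p →ₐ[ℚ_[p]] PadicAlgCl p) ζ r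
      simpa using this
    rw [this, hrx, norm_aut]
  -- Lagrange interpolation
  set f : (PadicAlgCl p)[X] := r.map (algebraMap ℚ_[p] (PadicAlgCl p)) with hf
  have hfd : f.degree < S.card := by
    rw [hf, degree_map, hScard, ← degree_eq_natDegree hPm.ne_zero]
    exact hrd
  have hinterp := Lagrange.eq_interpolate (v := (id : PadicAlgCl p → PadicAlgCl p))
    (Set.injOn_id _) hfd
  have hbasis : ∀ s ∈ S, Lagrange.basis S (id : PadicAlgCl p → PadicAlgCl p) s ∈
      lifts (ballRing p).subtype := by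
    intro s hs
    rw [Lagrange.basis]
    refine prod_mem fun t ht => ?_
    have ht' := Finset.mem_erase.1 ht
    rw [Lagrange.basisDivisor]
    refine mul_mem (C_lifts_ball ?_) (X_sub_C_lifts_ball (hS1 t ht'.2))
    rw [norm_inv]
    have hlt : ¬ ‖s - t‖ < 1 := fun hlt => ht'.1 (root_unique hn hp (hSn s hs) (hSn t ht'.2) hlt).symm
    exact inv_le_one_of_one_le₀ (not_lt.1 hlt)
  have hcoeff : ∀ i, ‖r.coeff i‖ ≤ ‖x‖ := by
    intro i
    have h1 : ‖f.coeff i‖ = ‖r.coeff i‖ := by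
      rw [hf, coeff_map]
      exact PadicAlgCl.norm_extends p _
    rw [← h1, hinterp, Lagrange.interpolate_apply, finsetSum_coeff]
    refine norm_sum_le' _ _ (norm_nonneg _) fun s hs => ?_
    rw [coeff_C_mul, norm_mul]
    have h2 : ‖eval (id s) f‖ = ‖x‖ := by
      rw [hf, eval_map_algebraMap]
      exact hSx s hs
    rw [h2]
    exact mul_le_of_le_one_right (norm_nonneg _) (mem_lifts_ball (hbasis s hs) i)
  -- the maximal coefficient
  obtain ⟨i₀, hi₀, hmax⟩ := Finset.exists_max_image r.support (fun i => ‖r.coeff i‖)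
    (support_nonempty.2 hr0)
  have hle : ‖x‖ ≤ ‖r.coeff i₀‖ := by
    rw [← hrx, aeval_eq_sum_range]
    refine norm_sum_le' _ _ (norm_nonneg _) fun i _ => ?_
    have hz : ‖ζ ^ i‖ ≤ 1 := by
      rw [norm_pow]
      exact pow_le_one₀ (norm_nonneg _) (norm_root hn h).le
    rw [norm_smul]
    refine (mul_le_of_le_one_right (norm_nonneg _) hz).trans ?_
    by_cases hi : i ∈ r.support
    · exact hmax i hi
    · rw [notMem_support_iff.1 hi, norm_zero]
      exact norm_nonneg _
  refine ⟨-(r.coeff i₀).valuation, ?_⟩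
  rw [le_antisymm hle (hcoeff i₀)]
  exact Padic.norm_eq_zpow_neg_valuation (mem_support_iff.1 hi₀)

end Pool.Agent.SNP.T
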